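import Mathlib
import Pool.Agent.Run7.h756.CC.AllPat

/-!
# Circles of shifts: progressions of prime pairs, and of all patterns, for the neighbours on circles which contain
all but a bounded number of the members of any set

For every `R` and `k` there are `C` and `B` such that for EVERY finite set `V` of natural numbers and any `R`
injective maps `f_ρ` from `V` to the natural numbers such that `f_ρ(V)` misses a class modulo each prime `p ≤ B`:
all members of `V` with at most `C` exceptions can be arranged in `m R` disjoint circles (`m 1 = 3`, `m 2 = 10`,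
`m 3 = 36`) such that for any (at most) `k` successive members `v, …, w` of a circle and every `ρ` all patterns of
primes on `f_ρ(v), …, f_ρ(w)` occur along arithmetic progressions of every length `l` with differences
`D ≤ (log N) ^ C'`; all but at most `B` of the numbers `n + f_ρ(v)`, `v ∈ V`, are then composite.
-/

set_option autoImplicit false

namespace Pool.Agent.Results.MP_a1f59e_nt.CirclesOfShifts

open Filter Finset
open Pool.Agent.Run7.h756.CC

open Classical in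
/-- the number of the `1 ≤ n ≤ N` such that for each of the `l` numbers `n' = n, n + D, …, n + (l - 1) D` all
`n' + a`, `a ∈ A`, are prime and no `n' + b`, `b ∈ B`, is prime -/
noncomputable def progressions (A B : Finset ℕ) (l D N : ℕ) : ℕ :=
  ((Icc 1 N).filter (fun n : ℕ => ∀ j < l, (∀ a ∈ A, (n + j * D + a).Prime) ∧
    ∀ b ∈ B, ¬ (n + j * D + b).Prime)).card

/-- All patterns on `F` along narrow progressions: there is a subset `T` of `V` with at most `J` members which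
contains `F` such that for every finite set `U` disjoint from `T` and every length `l` there is `C` such that for
arbitrarily large `N` and EVERY subset `A` of `F` there is a difference `1 ≤ D ≤ (log N) ^ C` for which at least
`N / (log N) ^ C` progressions of length `l` have primes at the shifts in `A` and no primes at the shifts in
`F \ A` and in `U`. -/
def AllPatterns (J : ℕ) (V F : Finset ℕ) : Prop := ∃ T ⊆ V, F ⊆ T ∧ T.card ≤ J ∧
  ∀ U : Finset ℕ, Disjoint U T → ∀ l : ℕ, ∃ C : ℕ, ∃ᶠ N : ℕ in atTop,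
    ∀ A ⊆ F, ∃ D : ℕ, 1 ≤ D ∧ (D : ℝ) ≤ Real.log N ^ C ∧
      (N : ℝ) / Real.log N ^ C ≤ (progressions A ((F \ A) ∪ U) l D N : ℝ)

/-- `m 0 = 1` and `m (R + 1) = ⌊18 * m R / 5⌋`: the numbers `1, 3, 10, 36, 129, ...` -/
def m : ℕ → ℕ
  | 0 => 1
  | R + 1 => 18 * m R / 5

theorem m_eq (R : ℕ) : m R = Pool.Agent.R493.SI.mR R := by
  induction R with
  | zero => rfl
  | succ R ih =>
    show 18 * m R / 5 = 18 * Pool.Agent.R493.SI.mR R / 5
    rw [ih]

/-- All members of `V` with at most `C` exceptions are arranged in `D` disjoint circles (lists without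
repetitions, read cyclically) such that any `k` successive members of a circle (all members, if there are fewer
than `k`) form a set with the property `G`. -/
def Circles (V : Finset ℕ) (D C k : ℕ) (G : Finset ℕ → Prop) : Prop :=
  ∃ e : Fin D → List ℕ, (∀ i, (e i).Nodup) ∧ (∀ i j, i ≠ j → List.Disjoint (e i) (e j)) ∧
    (∀ i, ∀ v ∈ e i, v ∈ V) ∧ (V.filter (fun v => ∀ i, v ∉ e i)).card ≤ C ∧
    ∀ i j, e i ≠ [] → G ((((e i).rotate j).take k).toFinset)

theorem allPatterns_of_pats {J : ℕ} {V F : Finset ℕ} {g : ℕ → ℕ}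
    (h : PatsJ J (V.image (fun v => ((1 : ℤ), (g v : ℤ)))) (F.image (fun v => ((1 : ℤ), (g v : ℤ))))) :
    AllPatterns J (V.image g) (F.image g) := by
  classical
  obtain ⟨T', hTV, hFT, hTJ, h⟩ := h
  have hval : ∀ n x : ℕ, (((1 : ℤ), (x : ℤ)).1 * (n : ℤ) + ((1 : ℤ), (x : ℤ)).2).toNat = n + x := by
    intro n x
    show ((1 : ℤ) * (n : ℤ) + (x : ℤ)).toNat = n + x
    rw [one_mul]
    omega
  refine ⟨T'.image (fun z => z.2.toNat), ?_, ?_, card_image_le.trans hTJ, ?_⟩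
  · intro x hx
    obtain ⟨z, hz, rfl⟩ := mem_image.1 hx
    obtain ⟨v, hv, rfl⟩ := mem_image.1 (hTV hz)
    simpa using mem_image_of_mem g hv
  · intro x hx
    obtain ⟨v, hv, rfl⟩ := mem_image.1 hx
    exact mem_image.2 ⟨((1 : ℤ), (g v : ℤ)), hFT (mem_image.2 ⟨v, hv, rfl⟩), by simp⟩
  intro U hU l
  obtain ⟨C, hC⟩ := h (U.image (fun u : ℕ => ((1 : ℤ), (u : ℤ)))) (by
    intro u hu
    obtain ⟨z, hz, rfl⟩ := mem_image.1 hu
    exact ⟨one_pos, isCoprime_one_left, fun h => disjoint_left.1 hU hz (mem_image.2 ⟨_, h, by simp⟩)⟩) l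
  refine ⟨C, hC.mono fun N hN A hA => ?_⟩
  obtain ⟨D, hD1, hD2, hD3⟩ := hN (A.image (fun a : ℕ => ((1 : ℤ), (a : ℤ)))) (by
    intro z hz
    obtain ⟨a, ha, rfl⟩ := mem_image.1 hz
    obtain ⟨v, hv, rfl⟩ := mem_image.1 (hA ha)
    exact mem_image.2 ⟨v, hv, rfl⟩)
  refine ⟨D, hD1, hD2, hD3.trans ?_⟩
  rw [Nat.cast_le]
  unfold Pool.Agent.Y827.HN.cntX progressions
  refine card_le_card ?_
  intro n hn
  obtain ⟨hn1, hn2⟩ := mem_filter.1 hn
  obtain ⟨hn3, hn4⟩ := mem_Icc.1 hn1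
  refine mem_filter.2 ⟨mem_Icc.2 ⟨by omega, hn4⟩, fun j hj => ?_⟩
  obtain ⟨h1, h2⟩ := hn2 j hj
  refine ⟨fun a ha => ?_, fun b hb => ?_⟩
  · have h3 := h1 _ (mem_image_of_mem (fun a : ℕ => ((1 : ℤ), (a : ℤ))) ha)
    rwa [hval] at h3
  · have h3 := h2 ((1 : ℤ), (b : ℤ)) (by
      rcases mem_union.1 hb with hb | hb
      · obtain ⟨hb1, hb2⟩ := mem_sdiff.1 hb
        refine mem_union_left _ (mem_sdiff.2 ⟨?_, fun h => ?_⟩)
        · obtain ⟨v, hv, rfl⟩ := mem_image.1 hb1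
          exact mem_image.2 ⟨v, hv, rfl⟩
        · obtain ⟨a, ha, hab⟩ := mem_image.1 h
          simp only [Prod.mk.injEq, Nat.cast_inj, true_and] at hab
          exact hb2 (hab ▸ ha)
      · exact mem_union_right _ (mem_image_of_mem _ hb))
    rwa [hval] at h3

/-- **Circles of shifts.** (1) is the general statement. (2) For `R` maps and `k = 2`: any two neighbours `s`, `t`
of a circle are such that for every `ρ` and every length `l` there is an arithmetic progression of `l` primes `p`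
for which all `p + |f_ρ(s) - f_ρ(t)|` are primes, too. -/
theorem result (R : ℕ) :
    (∀ k : ℕ, 1 ≤ k → ∃ C B : ℕ, ∀ (V : Finset ℕ) (f : Fin R → ℕ → ℕ), (∀ ρ, Set.InjOn (f ρ) V) →
      (∀ ρ, ∀ p : ℕ, p.Prime → p ≤ B → ∃ s : ℕ, ∀ v ∈ V, ¬ f ρ v ≡ s [MOD p]) →
      Circles V (m R) C k (fun w => ∀ ρ, AllPatterns B (V.image (f ρ)) (w.image (f ρ)))) ∧
    ∃ C B : ℕ, ∀ (V : Finset ℕ) (f : Fin R → ℕ → ℕ), (∀ ρ, Set.InjOn (f ρ) V) →
      (∀ ρ, ∀ p : ℕ, p.Prime → p ≤ B → ∃ s : ℕ, ∀ v ∈ V, ¬ f ρ v ≡ s [MOD p]) →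
      Circles V (m R) C 2 (fun w => ∀ s ∈ w, ∀ t ∈ w, s ≠ t → ∀ ρ, ∀ l : ℕ, ∃ a b : ℕ, 1 ≤ a ∧ 1 ≤ b ∧
        ∀ j < l, (a + j * b).Prime ∧ (a + j * b + (max (f ρ s) (f ρ t) - min (f ρ s) (f ρ t))).Prime) := by
  classical
  have main : ∀ k : ℕ, 1 ≤ k → ∃ C B : ℕ, ∀ (V : Finset ℕ) (f : Fin R → ℕ → ℕ), (∀ ρ, Set.InjOn (f ρ) V) →
      (∀ ρ, ∀ p : ℕ, p.Prime → p ≤ B → ∃ s : ℕ, ∀ v ∈ V, ¬ f ρ v ≡ s [MOD p]) →
      Circles V (m R) C k (fun w => ∀ ρ, AllPatterns B (V.image (f ρ)) (w.image (f ρ))) := by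
    intro k hk
    obtain ⟨C, B, h⟩ := pat_circles R k hk
    refine ⟨C, B, fun V f hf hloc => ?_⟩
    rw [m_eq]
    obtain ⟨e, he1, he2, he3, he4, he5⟩ := h V (fun ρ v => ((1 : ℤ), (f ρ v : ℤ))) (fun ρ v hv w hw hvw => by
      simp only [Prod.mk.injEq, Nat.cast_inj, true_and] at hvw
      exact hf ρ hv hw hvw) (fun ρ v _ => ⟨one_pos, isCoprime_one_left⟩) (fun ρ p hp hpB => by
      obtain ⟨s, hs⟩ := hloc ρ p hp hpB
      refine ⟨-(s : ℤ), fun v hv hd => hs v hv ?_⟩
      have h1 : (p : ℤ) ∣ (f ρ v : ℤ) - s := by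
        have : (1 : ℤ) * -(s : ℤ) + f ρ v = (f ρ v : ℤ) - s := by ring
        rwa [this] at hd
      exact (Nat.modEq_iff_dvd.2 h1).symm)
    exact ⟨e, he1, he2, he3, he4, fun i j hne ρ => allPatterns_of_pats (he5 ρ i j hne)⟩
  refine ⟨main, ?_⟩
  obtain ⟨C, B, h⟩ := main 2 (by norm_num)
  refine ⟨C, B, fun V f hf hloc => ?_⟩
  obtain ⟨e, he1, he2, he3, he4, he5⟩ := h V f hf hloc
  refine ⟨e, he1, he2, he3, he4, fun i j hne s hs t ht hst ρ l => ?_⟩
  obtain ⟨T, -, -, -, hT⟩ := he5 i j hne ρ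
  obtain ⟨C', hC'⟩ := hT ∅ (disjoint_empty_left _) l
  obtain ⟨N, hN, hN3⟩ := (hC'.and_eventually (eventually_ge_atTop 3)).exists
  obtain ⟨D, hD1, -, hD3⟩ := hN {f ρ s, f ρ t} (by
    intro x hx
    rw [mem_insert, mem_singleton] at hx
    rcases hx with rfl | rfl
    · exact mem_image_of_mem _ hs
    · exact mem_image_of_mem _ ht)
  have hlog : 1 ≤ Real.log N := Pool.Agent.Y827.RO.log_ge_one hN3
  have hpos : (0 : ℝ) < (progressions {f ρ s, f ρ t} ((((((e i).rotate j).take 2).toFinset.image (f ρ)) \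
      {f ρ s, f ρ t}) ∪ ∅) l D N : ℝ) := by
    refine lt_of_lt_of_le ?_ hD3
    have : (0 : ℝ) < N := by
      have : 0 < N := by omega
      exact_mod_cast this
    positivity
  have hpos' : 0 < progressions {f ρ s, f ρ t} ((((((e i).rotate j).take 2).toFinset.image (f ρ)) \
      {f ρ s, f ρ t}) ∪ ∅) l D N := by exact_mod_cast hpos
  unfold progressions at hpos'
  obtain ⟨n, hn⟩ := card_pos.1 hpos'
  obtain ⟨hn1, hn2⟩ := mem_filter.1 hn
  refine ⟨n + min (f ρ s) (f ρ t), D, by have := (mem_Icc.1 hn1).1; omega, hD1, fun j hj => ?_⟩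
  obtain ⟨h1, -⟩ := hn2 j hj
  have h2 := h1 (f ρ s) (by simp)
  have h3 := h1 (f ρ t) (by simp)
  have hle : min (f ρ s) (f ρ t) ≤ max (f ρ s) (f ρ t) := min_le_max
  rcases le_total (f ρ s) (f ρ t) with h4 | h4
  · rw [min_eq_left h4, max_eq_right h4]
    refine ⟨?_, ?_⟩
    · have e1 : n + f ρ s + j * D = n + j * D + f ρ s := by ring
      rwa [e1]
    · have e1 : n + f ρ s + j * D + (f ρ t - f ρ s) = n + j * D + f ρ t := by omega
      rwa [e1]
  · rw [min_eq_right h4, max_eq_left h4]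
    refine ⟨?_, ?_⟩
    · have e1 : n + f ρ t + j * D = n + j * D + f ρ t := by ring
      rwa [e1]
    · have e1 : n + f ρ t + j * D + (f ρ s - f ρ t) = n + j * D + f ρ s := by omega
      rwa [e1]

end Pool.Agent.Results.MP_a1f59e_nt.CirclesOfShifts
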