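import Pool.Agent.Run7.h560.AP.Forms2

set_option autoImplicit false

/-!
# Arithmetic progressions of twin (almost) primes starting at the integers given by their digits
-/

namespace Pool.Agent.Results.MP_a1f59e_nt.DigitStartingPoints

open Finset
open Pool.Agent.Run7.h560.AP

/-- the number of the residue classes `n` modulo `p` for which `p` divides one of the numbers
`n + k d, n + k d + 2`, `k < l` -/
noncomputable def roots (l d p : ℕ) : ℕ :=
  Set.ncard {n : ℕ | n < p ∧ p ∣ ∏ k ∈ range l, ((n + k * d) * (n + k * d + 2))}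

/-- the density `∏ (1 - roots(p) / p)` over the primes `p ≤ x` -/
noncomputable def dens (l d x : ℕ) : ℝ := ∏ p ∈ (range (x + 1)).filter Nat.Prime, (1 - (roots l d p : ℝ) / p)

/-- the constants of the forms -/
def fc (l d : ℕ) : Fin (l * 2) → ℤ := fun m => (((m.divNat : ℕ) * d + 2 * (m.modNat : ℕ) : ℕ) : ℤ)

/-- the coefficients of the forms -/
def fa (l : ℕ) : Fin (l * 2) → ℤ := fun _ => 1

lemma fval (l d n : ℕ) (m : Fin (l * 2)) :
    fa l m * (n : ℤ) + fc l d m = ((n + (m.divNat : ℕ) * d + 2 * (m.modNat : ℕ) : ℕ) : ℤ) := by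
  unfold fa fc
  push_cast
  ring

lemma div_pair {l : ℕ} (j : Fin l) (i : Fin 2) : (finProdFinEquiv (j, i)).divNat = j :=
  congrArg Prod.fst (finProdFinEquiv.symm_apply_apply (j, i))

lemma mod_pair {l : ℕ} (j : Fin l) (i : Fin 2) : (finProdFinEquiv (j, i)).modNat = i :=
  congrArg Prod.snd (finProdFinEquiv.symm_apply_apply (j, i))

lemma fprod (l d n : ℕ) : ∏ i, (fa l i * n + fc l d i) =
    ((∏ k ∈ range l, ((n + k * d) * (n + k * d + 2)) : ℕ) : ℤ) := by
  simp only [fval]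
  rw [← Nat.cast_prod]
  congr 1
  rw [← finProdFinEquiv.prod_comp, Fintype.prod_prod_type, ← Fin.prod_univ_eq_prod_range (fun k => (n + k * d) * (n + k * d + 2)) l]
  apply prod_congr rfl
  intro j _
  simp only [div_pair, mod_pair]
  rw [Fin.prod_univ_two]
  rfl

lemma rho_roots (l d p : ℕ) : rho (fa l) (fc l d) p = roots l d p := by
  rw [rho_ncard (fa l) (fc l d) p _ (fprod l d)]
  unfold roots
  congr 1
  ext n
  rw [Set.mem_ofPred_eq, Set.mem_ofPred_eq, Int.natCast_dvd_natCast]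

lemma forms_ok (l d : ℕ) : ∀ i, fa l i ≠ 0 ∧ IsCoprime (fa l i) (fc l d i) :=
  fun _ => ⟨one_ne_zero, isCoprime_one_left⟩

lemma admissible (l d : ℕ) (hd : ∀ p : ℕ, p.Prime → p ≤ 2 * l → p ∣ d) (p : ℕ) (hp : p.Prime) :
    rho (fa l) (fc l d) p < p := by
  by_cases h : p ≤ 2 * l
  · apply rho_lt _ _ p hp
    obtain ⟨n, hn⟩ : ∃ n : ℕ, ¬ p ∣ n ∧ ¬ p ∣ n + 2 := by
      have hp2 := hp.two_le
      by_cases h3 : p = 3
      · exact ⟨2, by rw [h3]; norm_num, by rw [h3]; norm_num⟩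
      · refine ⟨1, fun hd => ?_, fun hd => ?_⟩
        · have := Nat.le_of_dvd (by omega) hd
          omega
        · have := Nat.le_of_dvd (by omega) hd
          have h4 : p = 2 := by omega
          rw [h4] at hd
          omega
    refine ⟨n, fun m hdm => ?_⟩
    rw [fval, Int.natCast_dvd_natCast] at hdm
    have h1 : p ∣ (m.divNat : ℕ) * d := (hd p hp h).mul_left _
    have e : n + (m.divNat : ℕ) * d + 2 * (m.modNat : ℕ) = (n + 2 * (m.modNat : ℕ)) + (m.divNat : ℕ) * d := by ring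
    rw [e] at hdm
    have h2 := (Nat.dvd_add_left h1).1 hdm
    have h3 : (m.modNat : ℕ) = 0 ∨ (m.modNat : ℕ) = 1 := by
      have := m.modNat.isLt
      omega
    rcases h3 with h3 | h3
    · rw [h3, mul_zero, add_zero] at h2
      exact hn.1 h2
    · rw [h3, mul_one] at h2
      exact hn.2 h2
  · have := rho_le (fa l) (fc l d) (fun i => (forms_ok l d i).2) p hp
    omega

/-- **Main theorem.** -/
theorem result :
    (∀ b : ℕ, 2 ≤ b → ∀ (σ : Type) [Fintype σ] (M : DFA ℕ σ), NonSparse (autoSet b M) → ∀ l : ℕ,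
      ∃ (C : ℝ) (x₀ : ℕ), 0 < C ∧ ∀ x : ℕ, x₀ ≤ x → ∀ d : ℕ, (∀ p : ℕ, p.Prime → p ≤ 2 * l → p ∣ d) →
        (Set.ncard {n : ℕ | n ∈ autoSet b M ∧ n < x ∧ ∀ k < l, (n + k * d).Prime ∧ (n + k * d + 2).Prime} : ℝ) ≤
          C * below (autoSet b M) x * dens l d x) ∧
    (∀ b : ℕ, 2 ≤ b → ∀ S : Finset ℕ, 0 ∈ S → 1 ∈ S → ∀ l D : ℕ, ∃ (R : ℕ) (η c : ℝ) (x₀ : ℕ), 0 < η ∧ 0 < c ∧
      ∀ x : ℕ, x₀ ≤ x → ∀ d : ℕ, d ≤ x ^ D → (∀ p : ℕ, p.Prime → p ≤ 2 * l → p ∣ d) →
      (∃ e ∈ S, e < b ∧ ∀ k < l, Nat.Coprime (e + k * d) b ∧ Nat.Coprime (e + k * d + 2) b) →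
        c * below (digitSet b S) x * dens l d x ≤
          (Set.ncard {n : ℕ | n ∈ digitSet b S ∧ n < x ∧ ∀ k < l, Almost R ((x : ℝ) ^ η) (n + k * d) ∧
            Almost R ((x : ℝ) ^ η) (n + k * d + 2)} : ℝ)) ∧
    (∀ l : ℕ, ∃ c : ℝ, 0 < c ∧ ∀ d : ℕ, (∀ p : ℕ, p.Prime → p ≤ 2 * l → p ∣ d) →
      (∀ x : ℕ, 2 ≤ x → c / Real.log x ^ (2 * l) ≤ dens l d x) ∧
      (3 ≤ d → ∃ C : ℝ, ∀ x : ℕ, 2 ≤ x → dens l d x ≤ C / Real.log x ^ (2 * l))) := by
  classical
  have hdens : ∀ l d x : ℕ, ∏ p ∈ (range (x + 1)).filter Nat.Prime, (1 - (rho (fa l) (fc l d) p : ℝ) / p) = dens l d x := by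
    intro l d x
    unfold dens
    apply prod_congr rfl
    intro p _
    rw [rho_roots]
  refine ⟨fun b hb σ _ M hM l => ?_, fun b hb S h0 h1 l D => ?_, fun l => ?_⟩
  · obtain ⟨C, N₀, hC, h⟩ := sys_upper b hb M (nonsparse b M hM) (l * 2)
    refine ⟨C, N₀, hC, fun x hx d hd => ?_⟩
    have h2 := h x hx (fa l) (fc l d) (forms_ok l d) (fun p hp => admissible l d hd p hp)
    rw [hdens] at h2
    rw [below_cnt]
    refine le_trans ?_ h2
    rw [Nat.cast_le]
    apply ncard_le_cnt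
    rintro n ⟨a1, a2, a3⟩
    refine ⟨a1, a2, fun m => ?_⟩
    rw [fval, Int.natAbs_natCast]
    obtain ⟨b1, b2⟩ := a3 m.divNat m.divNat.isLt
    have h3 : (m.modNat : ℕ) = 0 ∨ (m.modNat : ℕ) = 1 := by
      have := m.modNat.isLt
      omega
    rcases h3 with h3 | h3
    · rw [h3, mul_zero, add_zero]
      exact b1
    · rw [h3, mul_one]
      exact b2
  · obtain ⟨R, η, c₀, N₀, hη, hc₀, h⟩ := digits_lower b hb S h0 h1 (l * 2) (D + l + 2)
    refine ⟨R, η, c₀, N₀ + 2, hη, hc₀, fun x hx d hdD hd he => ?_⟩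
    obtain ⟨e, heS, heb, he⟩ := he
    have h2 := h x (by omega) (fa l) (fc l d) (fun i => (forms_ok l d i).2) (by
      intro m
      have hx1 : 1 ≤ x ^ (D + l + 2) := Nat.one_le_pow _ _ (by omega)
      refine ⟨by simpa [fa] using hx1, ?_⟩
      unfold fc
      rw [Int.natAbs_natCast]
      have h3 : (m.modNat : ℕ) ≤ 1 := by
        have := m.modNat.isLt
        omega
      have h4 : (m.divNat : ℕ) ≤ x ^ l := by
        have h5 := m.divNat.isLt
        have h6 : l < x ^ l := Nat.lt_pow_self (by omega)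
        omega
      have h5 : 4 ≤ x ^ 2 := by nlinarith
      have h6 : 1 ≤ x ^ l * x ^ D := Nat.mul_pos (Nat.pow_pos (by omega)) (Nat.pow_pos (by omega))
      have h7 : (m.divNat : ℕ) * d ≤ x ^ l * x ^ D := Nat.mul_le_mul h4 hdD
      have h8 : x ^ (D + l + 2) = x ^ l * x ^ D * x ^ 2 := by ring
      rw [h8]
      nlinarith) (fun p hp _ => admissible l d hd p hp) ⟨e, heS, heb, by
      intro m
      rw [fval, Nat.isCoprime_iff_coprime]
      obtain ⟨b1, b2⟩ := he m.divNat m.divNat.isLt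
      have h3 : (m.modNat : ℕ) = 0 ∨ (m.modNat : ℕ) = 1 := by
        have := m.modNat.isLt
        omega
      rcases h3 with h3 | h3
      · rw [h3, mul_zero, add_zero]
        exact b1
      · rw [h3, mul_one]
        exact b2⟩
    rw [hdens] at h2
    rw [digit_auto, below_cnt]
    refine h2.trans ?_
    rw [Nat.cast_le]
    have h3 := cnt_le_ncard b (dfa S) x
      (fun n => ∀ i, fa l i * n + fc l d i ≠ 0 ∧ (fa l i * n + fc l d i).natAbs.primeFactorsList.length ≤ R ∧
        ∀ p : ℕ, p.Prime → (p : ℤ) ∣ fa l i * n + fc l d i → (x : ℝ) ^ η < p)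
      {n : ℕ | n ∈ autoSet b (dfa S) ∧ n < x ∧ ∀ k < l, Almost R ((x : ℝ) ^ η) (n + k * d) ∧
            Almost R ((x : ℝ) ^ η) (n + k * d + 2)}
      (fin_lt x _ (fun n hn => hn.2.1)) ∅ (by
      intro n a1 a2 a3
      left
      refine ⟨a1, a2, fun k hk => ?_⟩
      have hal : ∀ i : Fin 2, Almost R ((x : ℝ) ^ η) (n + k * d + 2 * (i : ℕ)) := by
        intro i
        obtain ⟨b1, b2, b3⟩ := a3 (finProdFinEquiv (⟨k, hk⟩, i))
        rw [fval, div_pair, mod_pair] at b1 b2 b3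
        rw [Int.natAbs_natCast] at b2
        exact ⟨by exact_mod_cast b1, b2, fun p hp hpd => b3 p hp (Int.natCast_dvd_natCast.2 hpd)⟩
      exact ⟨hal 0, hal 1⟩)
    rw [card_empty, add_zero] at h3
    exact h3
  · obtain ⟨c, hc, h⟩ := prod_low (l * 2)
    refine ⟨c, hc, fun d hd => ⟨fun x hx => ?_, fun hd3 => ?_⟩⟩
    · have h1 := h (rho (fa l) (fc l d)) x hx (fun p hp =>
        ⟨rho_le (fa l) (fc l d) (fun i => (forms_ok l d i).2) p hp, admissible l d hd p hp⟩)
      have h2 : ∏ p ∈ prs x, (1 - (rho (fa l) (fc l d) p : ℝ) / p) = dens l d x := hdens l d x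
      rw [h2, mul_comm l 2] at h1
      exact h1
    · obtain ⟨c', C, hc', hC, h'⟩ := dens_bounds (fa l) (fc l d) (forms_ok l d) (by
        intro i j hij
        unfold fa
        rw [one_mul, one_mul, sub_ne_zero]
        intro hcon
        apply hij
        unfold fc at hcon
        have h1 : (j.divNat : ℕ) * d + 2 * (j.modNat : ℕ) = (i.divNat : ℕ) * d + 2 * (i.modNat : ℕ) := by exact_mod_cast hcon
        have hi := i.modNat.isLt
        have hj := j.modNat.isLt
        have h2 : (j.divNat : ℕ) = i.divNat := by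
          rcases Nat.lt_trichotomy (j.divNat : ℕ) (i.divNat : ℕ) with h | h | h
          · exfalso
            have : ((j.divNat : ℕ) + 1) * d ≤ (i.divNat : ℕ) * d := Nat.mul_le_mul_right _ h
            rw [add_mul, one_mul] at this
            omega
          · exact h
          · exfalso
            have : ((i.divNat : ℕ) + 1) * d ≤ (j.divNat : ℕ) * d := Nat.mul_le_mul_right _ h
            rw [add_mul, one_mul] at this
            omega
        have h3 : (j.modNat : ℕ) = i.modNat := by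
          rw [h2] at h1
          omega
        have h4 : finProdFinEquiv.symm j = finProdFinEquiv.symm i := by
          show (j.divNat, j.modNat) = (i.divNat, i.modNat)
          rw [Fin.ext h2, Fin.ext h3]
        exact (finProdFinEquiv.symm.injective h4).symm) (fun p hp => admissible l d hd p hp)
      refine ⟨C, fun x hx => ?_⟩
      have h1 := (h' x hx).2
      have h2 : ∏ p ∈ prs x, (1 - (rho (fa l) (fc l d) p : ℝ) / p) = dens l d x := hdens l d x
      rw [h2, mul_comm l 2] at h1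
      exact h1

end Pool.Agent.Results.MP_a1f59e_nt.DigitStartingPoints
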