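import Pool.Agent.Run7.h90.AU.Shift

set_option autoImplicit false

/-!
# Arithmetic progressions of twin prime pairs at the members of thin families of residues modulo a prime

Let `p` be a large prime and let `(v_i)`, `i ∈ s`, be a family of residues modulo `p` whose exponential sums
`∑ e(ξ v_i / p)`, `ξ ≠ 0`, are at most `p ^ (-ε) |s|`; the family may be very thin. Examples: the values of a sparse
polynomial of arbitrary degree on a subgroup of order `p ^ η`, the values `c_1 g_1 ^ n + ... + c_k g_k ^ n`, `n < N`,
`N ≥ p ^ η`. The theorem is about the integers `n` congruent to a member of the family modulo `p` in an interval of length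
`L ≥ p ^ (1 - δ)`. For every
`l ≥ 3`, uniformly in all differences `b` with `l b + 3 ≤ p ^ A` for which the `2 l` numbers `n + k b`, `n + k b + 2`,
`k < l`, have no fixed prime divisor, these `2 l` numbers are simultaneously without prime factors up to `z` with the
frequency predicted by Hardy and Littlewood. Every `b` divisible by all primes up to `2 l` is such a difference.

Proof: bound of Bourgain, Glibichuk and Konyagin in the form for recurrences and monomials (`Agent/Run7/h823/BK9`);
equidistribution in the residue classes modulo all integers up to `p ^ δ` and the fundamental lemma of the sieve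
(`Agent/Run7/h90/AU`).
-/

namespace Pool.Agent.Results.MP_a1f59e_nt.TwinProgressionsInSparseFamilies

open Finset Filter Topology
open Pool.Agent.Run7.h90.AU (UniformFormula UniformOrders SparseSmall RecurrencesSmall classes singularSeries)

/-- The shifts `k b`, `k b + 2`, `k < l`. -/
def shifts (l b : ℕ) : Finset ℕ := (range l).image (fun k => k * b) ∪ (range l).image (fun k => k * b + 2)

/-- `b > 0` and the shifts do not meet all the residue classes modulo any prime. -/
def Good (l b : ℕ) : Prop := 0 < b ∧ ∀ q : ℕ, q.Prime → classes (shifts l b) q < q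

/-- The `l` pairs `n + k b`, `n + k b + 2`, `k < l`, consist of numbers with the property `P`. -/
def Progression (l b : ℕ) (P : ℕ → Prop) (n : ℕ) : Prop := ∀ k < l, P (n + k * b) ∧ P (n + k * b + 2)

/-- A bound for the shifts. -/
def size (l b : ℕ) : ℝ := (l : ℝ) * b + 3

theorem classes_two {E : Finset ℕ} (h0 : ∃ e ∈ E, e % 2 = 0) (h1 : ∃ e ∈ E, e % 2 = 1) : 2 ≤ classes E 2 := by
  obtain ⟨e, he, h0⟩ := h0
  obtain ⟨f, hf, h1⟩ := h1
  have h : ({0, 1} : Finset ℕ) ⊆ E.image fun e => e % 2 := by
    intro x hx
    simp only [mem_insert, mem_singleton] at hx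
    rcases hx with rfl | rfl
    · exact mem_image.2 ⟨e, he, h0⟩
    · exact mem_image.2 ⟨f, hf, h1⟩
  exact card_le_card h

theorem classes_three {E : Finset ℕ} (h0 : ∃ e ∈ E, e % 3 = 0) (h1 : ∃ e ∈ E, e % 3 = 1) (h2 : ∃ e ∈ E, e % 3 = 2) :
    3 ≤ classes E 3 := by
  obtain ⟨e, he, h0⟩ := h0
  obtain ⟨f, hf, h1⟩ := h1
  obtain ⟨g, hg, h2⟩ := h2
  have h : ({0, 1, 2} : Finset ℕ) ⊆ E.image fun e => e % 3 := by
    intro x hx
    simp only [mem_insert, mem_singleton] at hx
    rcases hx with rfl | rfl | rfl
    · exact mem_image.2 ⟨e, he, h0⟩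
    · exact mem_image.2 ⟨f, hf, h1⟩
    · exact mem_image.2 ⟨g, hg, h2⟩
  exact card_le_card h

theorem two_lt {l b : ℕ} (hl : 3 ≤ l) (h : Good l b) : 2 < b := by
  obtain ⟨hb, h⟩ := h
  by_contra hcon
  have hc : b = 1 ∨ b = 2 := by omega
  have mem : ∀ k < l, k * b ∈ shifts l b := fun k hk => mem_union_left _ (mem_image.2 ⟨k, mem_range.2 hk, rfl⟩)
  rcases hc with rfl | rfl
  · have := classes_two ⟨_, mem 0 (by omega), by norm_num⟩ ⟨_, mem 1 (by omega), by norm_num⟩
    have := h 2 Nat.prime_two
    omega
  · have := classes_three ⟨_, mem 0 (by omega), by norm_num⟩ ⟨_, mem 2 (by omega), by norm_num⟩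
      ⟨_, mem 1 (by omega), by norm_num⟩
    have := h 3 Nat.prime_three
    omega

theorem card_shifts {l b : ℕ} (hb : 2 < b) : (shifts l b).card = 2 * l := by
  unfold shifts
  rw [card_union_of_disjoint, card_image_of_injective, card_image_of_injective, card_range]
  · ring
  · intro x y h
    have h1 : x * b + 2 = y * b + 2 := h
    exact Nat.eq_of_mul_eq_mul_right (by omega) (Nat.add_right_cancel h1)
  · intro x y h
    exact Nat.eq_of_mul_eq_mul_right (by omega) h
  · rw [disjoint_left]
    intro x hx hy
    rw [mem_image] at hx hy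
    obtain ⟨k, -, rfl⟩ := hx
    obtain ⟨j, -, h⟩ := hy
    have h1 : b ∣ 2 := by
      have h2 : b ∣ j * b + 2 := by rw [h]; exact dvd_mul_left _ _
      exact (Nat.dvd_add_right (dvd_mul_left b j)).1 h2
    have := Nat.le_of_dvd (by norm_num) h1
    omega

/-- Every positive `b` divisible by all primes up to `2 l` satisfies the condition. -/
theorem good_of {l b : ℕ} (hb : 0 < b) (h : ∀ q : ℕ, q.Prime → q ≤ 2 * l → q ∣ b) : Good l b := by
  refine ⟨hb, fun q hq => ?_⟩
  rcases le_or_gt q (2 * l) with h1 | h1
  · have hd := h q hq h1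
    have hsub : (shifts l b).image (fun e => e % q) ⊆ {0, 2 % q} := by
      intro x hx
      rw [mem_image] at hx
      obtain ⟨e, he, rfl⟩ := hx
      unfold shifts at he
      rw [mem_union, mem_image, mem_image] at he
      rw [mem_insert, mem_singleton]
      rcases he with ⟨k, -, rfl⟩ | ⟨k, -, rfl⟩
      · exact Or.inl (Nat.mod_eq_zero_of_dvd (hd.mul_left k))
      · right
        rw [Nat.add_mod, Nat.mod_eq_zero_of_dvd (hd.mul_left k), zero_add, Nat.mod_mod]
    have h2 := card_le_card hsub
    have hq2 := hq.two_le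
    unfold classes
    rcases Nat.lt_or_ge 2 q with h3 | h3
    · have h4 : ({0, 2 % q} : Finset ℕ).card ≤ 2 := card_le_two
      omega
    · have h4 : q = 2 := by omega
      rw [h4] at h2 ⊢
      simpa using Nat.lt_succ_of_le h2
  · have h2 : classes (shifts l b) q ≤ (shifts l b).card := card_image_le
    have h3 : (shifts l b).card ≤ 2 * l := by
      unfold shifts
      refine (card_union_le _ _).trans ?_
      have h4 := card_image_le (s := range l) (f := fun k => k * b)
      have h5 := card_image_le (s := range l) (f := fun k => k * b + 2)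
      rw [card_range] at h4 h5
      omega
    omega

theorem ok (l : ℕ) (hl : 3 ≤ l) (b : ℕ) (h : Good l b) : Pool.Agent.Run7.h90.AU.Admissible (2 * l) (shifts l b) :=
  ⟨card_shifts (two_lt hl h), h.2⟩

theorem size_le (l b : ℕ) (_ : Good l b) : Pool.Agent.Run7.h90.AU.height (shifts l b) ≤ size l b := by
  unfold Pool.Agent.Run7.h90.AU.height size
  have h1 : (shifts l b).sup id ≤ l * b + 2 := by
    apply Finset.sup_le
    intro e he
    unfold shifts at he
    rw [mem_union, mem_image, mem_image] at he
    rcases he with ⟨k, hk, rfl⟩ | ⟨k, hk, rfl⟩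
    · have := Nat.mul_le_mul_right b (mem_range.1 hk).le
      simp only [id]
      omega
    · have := Nat.mul_le_mul_right b (mem_range.1 hk).le
      simp only [id]
      omega
  have h2 : (((shifts l b).sup id : ℕ) : ℝ) ≤ ((l * b + 2 : ℕ) : ℝ) := by exact_mod_cast h1
  push_cast at h2
  linarith

theorem pat (l b : ℕ) (_ : Good l b) (P : ℕ → Prop) (n : ℕ) (_ : 1 ≤ n) :
    Pool.Agent.Run7.h90.AU.Shifts (shifts l b) P n ↔ Progression l b P n := by
  unfold Pool.Agent.Run7.h90.AU.Shifts Progression shifts
  constructor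
  · intro h k hk
    refine ⟨h _ (mem_union_left _ (mem_image.2 ⟨k, mem_range.2 hk, rfl⟩)), ?_⟩
    rw [add_assoc]
    exact h _ (mem_union_right _ (mem_image.2 ⟨k, mem_range.2 hk, rfl⟩))
  · intro h e he
    rw [mem_union, mem_image, mem_image] at he
    rcases he with ⟨k, hk, rfl⟩ | ⟨k, hk, rfl⟩
    · exact (h k (mem_range.1 hk)).1
    · rw [← add_assoc]
      exact (h k (mem_range.1 hk)).2

theorem result : (∀ l : ℕ, 3 ≤ l →
    UniformFormula (2 * l) (Progression l) (fun b => singularSeries (2 * l) (shifts l b)) (size l) (Good l) ∧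
    UniformOrders (2 * l) (Progression l) (fun b => singularSeries (2 * l) (shifts l b)) (size l) (Good l) ∧
    ∀ b : ℕ, 0 < b → (∀ q : ℕ, q.Prime → q ≤ 2 * l → q ∣ b) → Good l b) ∧ SparseSmall ∧ RecurrencesSmall :=
  ⟨fun l hl => ⟨(Pool.Agent.Run7.h90.AU.shiftPat (2 * l)).formula.comap (shifts l) (ok l hl) (size_le l) (pat l)
      (fun _ _ => EventuallyEq.rfl),
    (Pool.Agent.Run7.h90.AU.shiftPat (2 * l)).orders.comap (shifts l) (ok l hl) (size_le l) (pat l)
      (fun _ _ => EventuallyEq.rfl), fun _ hb h => good_of hb h⟩,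
    Pool.Agent.Run7.h90.AU.sparse_small, Pool.Agent.Run7.h90.AU.rec_small⟩

end Pool.Agent.Results.MP_a1f59e_nt.TwinProgressionsInSparseFamilies
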