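import Pool.Agent.Run7.h620.PD.Uni

set_option autoImplicit false

/-!
# Arithmetic progressions of almost prime twins with every common difference, from a two-digit palindrome

`n` runs over the palindromes with `K` base `b` digits, all of them `e` or `f`. Uniformly in the common difference
`d ≤ b ^ (L K)`, for at least `c 2 ^ (K / 2) / K ^ (2 l)` of these palindromes all numbers `n + j d` and
`n + j d + 2`, `j < l`, have at most `r` prime factors.

Proof: level of distribution of the palindromes with two digits (balanced digits of all fractions with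
denominators up to `exp (c K)` are counted at once), a residue class modulo a fixed number in which none of the
`2 l` numbers is divisible by a high power of a small prime, the fundamental lemma, Mertens.
-/

namespace Pool.Agent.Results.MP_a1f59e_nt.TwoDigitPalindromes

open Finset Filter

/-- `n` has exactly `K` base `b` digits, all of them `e` or `f`, and they read the same backwards. -/
def Pal (b e f K n : ℕ) : Prop :=
  (Nat.digits b n).length = K ∧ (Nat.digits b n).reverse = Nat.digits b n ∧ ∀ d ∈ Nat.digits b n, d = e ∨ d = f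

open Classical in
/-- **Progressions of almost prime twins with every common difference.** -/
theorem result : ∀ b : ℕ, 2 ≤ b → ∀ e f : ℕ, e < b → f < b → e ≠ 0 → f ≠ e → ∀ l L : ℕ, 2 ≤ l → 1 ≤ L →
    ∃ c : ℝ, 0 < c ∧ ∃ r : ℕ, ∀ᶠ K : ℕ in atTop, ∀ d : ℕ, d ≤ b ^ (L * K) →
      c * (2 : ℝ) ^ ((K : ℝ) / 2) / (K : ℝ) ^ (2 * l) ≤
        (((Finset.range (b ^ K)).filter (fun n : ℕ => Pal b e f K n ∧ ∀ j < l,
          (n + j * d).primeFactorsList.length ≤ r ∧ (n + j * d + 2).primeFactorsList.length ≤ r)).card : ℝ) := by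
  intro b hb e f he hf he0 hef l L hl hL
  obtain ⟨c, hc, r, h⟩ := Pool.Agent.Run7.h620.PD.lin_uniform b hb e f he hf he0 hef (2 * l) (by omega)
    (fun _ => 1) (fun i _ => by norm_num) (L + 1) (by omega)
  refine ⟨c, hc, r, ?_⟩
  filter_upwards [h, eventually_ge_atTop (l + 2)] with K hK hK1 d hd
  have hbig : l * b ^ (L * K) + 2 ≤ b ^ ((L + 1) * K) := by
    have h1 : 1 ≤ b ^ (L * K) := Nat.one_le_pow _ _ (by omega)
    have h2 : l + 2 ≤ b ^ K := by
      calc l + 2 ≤ K := hK1
        _ ≤ 2 ^ K := (Nat.lt_two_pow_self).le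
        _ ≤ b ^ K := Nat.pow_le_pow_left hb _
    calc l * b ^ (L * K) + 2 ≤ l * b ^ (L * K) + 2 * b ^ (L * K) := by omega
      _ = (l + 2) * b ^ (L * K) := by ring
      _ ≤ b ^ K * b ^ (L * K) := Nat.mul_le_mul_right _ h2
      _ = _ := by rw [← pow_add]; congr 1; ring
  obtain ⟨P, hP1, hP2⟩ := hK (fun i => ((i / 2 * d + 2 * (i % 2) : ℕ) : ℤ)) (by
    intro i hi
    rw [Int.natAbs_natCast]
    refine le_trans ?_ hbig
    have h1 : i / 2 * d ≤ l * b ^ (L * K) := Nat.mul_le_mul (by omega) hd
    omega)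
  refine hP1.trans ?_
  have hle : P.card ≤ ((Finset.range (b ^ K)).filter (fun n : ℕ => Pal b e f K n ∧ ∀ j < l,
          (n + j * d).primeFactorsList.length ≤ r ∧ (n + j * d + 2).primeFactorsList.length ≤ r)).card := by
    apply card_le_card
    intro n hn
    obtain ⟨h1, h2, h3⟩ := hP2 n hn
    rw [mem_filter, mem_range]
    refine ⟨h1, h2, fun j hj => ?_⟩
    have g0 := (h3 (2 * j) (by omega)).2
    have g1 := (h3 (2 * j + 1) (by omega)).2
    rw [ArithmeticFunction.cardFactors_apply] at g0 g1
    have e0 : (1 * (n : ℤ) + ((2 * j / 2 * d + 2 * (2 * j % 2) : ℕ) : ℤ)).natAbs = n + j * d := by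
      have i1 : 2 * j / 2 = j := by omega
      have i2 : 2 * j % 2 = 0 := by omega
      rw [i1, i2, mul_zero, add_zero, one_mul, ← Nat.cast_add, Int.natAbs_natCast]
    have e1 : (1 * (n : ℤ) + (((2 * j + 1) / 2 * d + 2 * ((2 * j + 1) % 2) : ℕ) : ℤ)).natAbs = n + j * d + 2 := by
      have i1 : (2 * j + 1) / 2 = j := by omega
      have i2 : (2 * j + 1) % 2 = 1 := by omega
      rw [i1, i2, mul_one, one_mul, ← Nat.cast_add, Int.natAbs_natCast, ← add_assoc]
    rw [e0] at g0
    rw [e1] at g1
    exact ⟨g0, g1⟩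
  exact_mod_cast hle

end Pool.Agent.Results.MP_a1f59e_nt.TwoDigitPalindromes
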